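import Pool.Agent.Helper39.KZ.Stmts

/-!
# TAU: the function `tau` of the exterior map
-/

set_option autoImplicit false

open Metric Set Polynomial

namespace KZ

theorem st_TAU : ST_TAU := by
  intro K g _ hE
  have h0 : (0 : ℂ) ∈ ball (0 : ℂ) 1 := mem_ball_self one_pos
  have hd : DifferentiableOn ℂ (dslope g 0) (ball 0 1) :=
    (Complex.differentiableOn_dslope (isOpen_ball.mem_nhds h0)).2 hE.diff
  have hmul : ∀ t, g t = t * dslope g 0 t := by
    intro t
    have h := sub_smul_dslope g 0 t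
    rw [hE.zero, sub_zero, sub_zero, smul_eq_mul] at h
    exact h.symm
  have hne : ∀ t ∈ ball (0 : ℂ) 1, t ≠ 0 → g t ≠ 0 := by
    intro t ht ht0 hg
    exact ht0 (hE.inj ht h0 (hg.trans hE.zero.symm))
  have hds : ∀ t ∈ ball (0 : ℂ) 1, dslope g 0 t ≠ 0 := by
    intro t ht hz
    by_cases ht0 : t = 0
    · rw [ht0, dslope_same] at hz
      exact hE.der 0 h0 hz
    · apply hne t ht ht0
      rw [hmul t, hz, mul_zero]
  refine ⟨?_, hd, ?_, hds, hmul, hne, ?_⟩
  · intro t ht
    exact ((hE.diff.deriv isOpen_ball) t ht).div (hd t ht) (hds t ht)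
  · have h1 := hE.der 0 h0
    simp only [tau, dslope_same]
    exact div_self h1
  · intro t ht
    exact div_ne_zero (hE.der t ht) (hds t ht)

end KZ
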